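import Pool.Agent.P8H78.SF.Base

set_option autoImplicit false

/-!
# Project SF (helper10), package ALT (after P8H33/QC/Core)
-/

open Matrix

namespace Pool.Agent.P8H78.SF

open Pool.Agent.P8H10.SF

/-- The situation: `σ` changes two signs and `τ` permutes `x, y, z`. -/
structure Kl {K Ω : Type} [Field K] [Field Ω] (e : K →+* Ω) (σ τ : Ω →+* Ω) (x y z : Ω) : Prop where
  se : ∀ c, σ (e c) = e c
  te : ∀ c, τ (e c) = e c
  sx : σ x = x
  sy : σ y = -y
  sz : σ z = -z
  tx : τ x = y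
  ty : τ y = z
  tz : τ z = x
  nx : x ≠ 0

section

variable {K Ω : Type} [Field K] [Field Ω] [CharZero Ω] {e : K →+* Ω} {σ τ : Ω →+* Ω} {x y z : Ω}

theorem Kl.ny (h : Kl e σ τ x y z) : y ≠ 0 := by
  rw [← h.tx]
  exact (map_ne_zero τ).2 h.nx

theorem Kl.nz (h : Kl e σ τ x y z) : z ≠ 0 := by
  rw [← h.ty]
  exact (map_ne_zero τ).2 h.ny

theorem Kl.xy (h : Kl e σ τ x y z) : x ^ 2 ≠ y ^ 2 := by
  intro he
  have h2 : (2 : Ω) ≠ 0 := two_ne_zero
  rcases sq_eq_sq_iff_eq_or_eq_neg.1 he with h1 | h1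
  · have h3 := congrArg σ h1
    rw [h.sx, h.sy, ← h1] at h3
    apply h.nx
    have h4 : 2 * x = 0 := by linear_combination h3
    exact (mul_eq_zero.1 h4).resolve_left h2
  · have h3 := congrArg σ h1
    rw [h.sx, map_neg, h.sy, neg_neg] at h3
    apply h.nx
    have h4 : 2 * x = 0 := by linear_combination h1 + h3
    exact (mul_eq_zero.1 h4).resolve_left h2

/-- relations between the squares -/
theorem Kl.sq_rel (h : Kl e σ τ x y z)
    (hb : ∀ s t : K, s ^ 2 + s * t + t ^ 2 = 0 → s = 0 ∧ t = 0) (t1 t2 t3 : K)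
    (hs : t1 + t2 + t3 = 0)
    (he : e t1 * x ^ 2 + e t2 * y ^ 2 + e t3 * z ^ 2 = 0) : t1 = 0 ∧ t2 = 0 ∧ t3 = 0 := by
  have e1 := congrArg τ he
  simp only [map_add, map_mul, map_pow, h.te, map_zero, h.tx, h.ty, h.tz] at e1
  have ht3 : e t3 = -e t1 - e t2 := by
    have : t3 = -t1 - t2 := by linear_combination hs
    rw [this, map_sub, map_neg]
  rw [ht3] at he e1
  have hdet : e (t1 ^ 2 + t1 * t2 + t2 ^ 2) * (x ^ 2 - z ^ 2) = 0 := by
    rw [map_add, map_add, map_mul, map_pow, map_pow]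
    linear_combination e t1 * he - e t2 * e1
  rcases mul_eq_zero.1 hdet with h1 | h1
  · have h2 : t1 ^ 2 + t1 * t2 + t2 ^ 2 = 0 := (map_eq_zero e).1 h1
    obtain ⟨h3, h4⟩ := hb _ _ h2
    exact ⟨h3, h4, by rw [h3, h4] at hs; linear_combination hs⟩
  · exfalso
    have h2 := congrArg τ (sub_eq_zero.1 h1)
    rw [map_pow, map_pow, h.tx, h.tz] at h2
    exact h.xy h2.symm

/-- relations of the second kind -/
theorem Kl.mix (h : Kl e σ τ x y z) {A : Ω} (hA : τ A = A) (a : K) (he : e a * (y * z) + A * x = 0) :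
    a = 0 ∧ A = 0 := by
  have e1 := congrArg τ he
  simp only [map_add, map_mul, h.te, map_zero, h.tx, h.ty, h.tz, hA] at e1
  have e2 : e a * (z * (y ^ 2 - x ^ 2)) = 0 := by
    linear_combination y * he - x * e1
  have ha : a = 0 := by
    rcases mul_eq_zero.1 e2 with h1 | h1
    · exact (map_eq_zero e).1 h1
    · exfalso
      rcases mul_eq_zero.1 h1 with h2 | h2
      · exact h.nz h2
      · exact h.xy (sub_eq_zero.1 h2).symm
  refine ⟨ha, ?_⟩
  rw [ha, map_zero, zero_mul, zero_add] at he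
  exact (mul_eq_zero.1 he).resolve_right h.nx

/-- The general quadratic relation. -/
theorem Kl.quad (h : Kl e σ τ x y z)
    (hb2 : ∀ s t : K, s ^ 2 + s * t + t ^ 2 = 0 → s = 0 ∧ t = 0)
    {F A B C : Ω} (hFs : σ F = F) (hFt : τ F = F) (hAs : σ A = A)
    (hAt : τ A = A) (hBs : σ B = B) (hBt : τ B = B) (hCs : σ C = C) (hCt : τ C = C)
    (a b c a' b' c' : K)
    (he : F + e a * x ^ 2 + e b * y ^ 2 + e c * z ^ 2 + e a' * (y * z) + e b' * (z * x) +
      e c' * (x * y) + A * x + B * y + C * z = 0) :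
    b = a ∧ c = a ∧ a' = 0 ∧ b' = 0 ∧ c' = 0 ∧ A = 0 ∧ B = 0 ∧ C = 0 ∧
      F + e a * (x ^ 2 + y ^ 2 + z ^ 2) = 0 := by
  have h2 : (2 : Ω) ≠ 0 := two_ne_zero
  have e1 := congrArg σ he
  simp only [map_add, map_mul, map_pow, h.se, map_zero, h.sx, h.sy, h.sz, hFs, hAs, hBs,
    hCs] at e1
  have p1 : F + e a * x ^ 2 + e b * y ^ 2 + e c * z ^ 2 + e a' * (y * z) + A * x = 0 := by
    apply mul_left_cancel₀ h2
    linear_combination he + e1
  have p2 : e b' * (z * x) + e c' * (x * y) + B * y + C * z = 0 := by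
    apply mul_left_cancel₀ h2
    linear_combination he - e1
  have e2 := congrArg τ p1
  simp only [map_add, map_mul, map_pow, h.te, map_zero, h.tx, h.ty, h.tz, hFt, hAt] at e2
  have e3 := congrArg σ e2
  simp only [map_add, map_mul, map_pow, h.se, map_zero, h.sx, h.sy, h.sz, hFs, hAs] at e3
  have q1 : F + e a * y ^ 2 + e b * z ^ 2 + e c * x ^ 2 = 0 := by
    apply mul_left_cancel₀ h2
    linear_combination e2 + e3
  have q2 : e a' * (z * x) + A * y = 0 := by
    apply mul_left_cancel₀ h2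
    linear_combination e2 - e3
  have q3 : e a' * (y * z) + A * x = 0 := by
    have e4 := congrArg τ (congrArg τ q2)
    simp only [map_add, map_mul, h.te, map_zero, h.tx, h.ty, h.tz, hAt] at e4
    linear_combination e4
  obtain ⟨ha', hA⟩ := h.mix hAt a' q3
  have e5 := congrArg τ p2
  simp only [map_add, map_mul, h.te, map_zero, h.tx, h.ty, h.tz, hBt, hCt] at e5
  have e6 := congrArg σ e5
  simp only [map_add, map_mul, h.se, map_zero, h.sx, h.sy, h.sz, hBs, hCs] at e6
  have q4 : e c' * (y * z) + C * x = 0 := by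
    apply mul_left_cancel₀ h2
    linear_combination e5 + e6
  have q5 : e b' * (x * y) + B * z = 0 := by
    apply mul_left_cancel₀ h2
    linear_combination e5 - e6
  have q6 : e b' * (y * z) + B * x = 0 := by
    have e4 := congrArg τ q5
    simp only [map_add, map_mul, h.te, map_zero, h.tx, h.ty, h.tz, hBt] at e4
    linear_combination e4
  obtain ⟨hc', hC⟩ := h.mix hCt c' q4
  obtain ⟨hb', hB⟩ := h.mix hBt b' q6
  have q7 : F + e a * x ^ 2 + e b * y ^ 2 + e c * z ^ 2 = 0 := by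
    linear_combination p1 - q3
  have hrel := h.sq_rel hb2 (a - c) (b - a) (c - b) (by ring) (by
    rw [map_sub, map_sub, map_sub]
    linear_combination q7 - q1)
  have hba : b = a := by linear_combination hrel.2.1
  have hca : c = a := by linear_combination -hrel.1
  refine ⟨hba, hca, ha', hb', hc', hA, hB, hC, ?_⟩
  rw [hba, hca] at q7
  linear_combination q7

end

theorem alt : S_ALT := by
  intro K Ω _ _ _ _ hani hb2 σ τ x y z hτe hσe sx sy sz tx ty tz nx U hUt hUs M hM hdet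
  set e : K →+* Ω := algebraMap K Ω with he
  have h : Kl e σ τ x y z := ⟨hσe, hτe, sx, sy, sz, tx, ty, tz, nx⟩
  have hdec : ∀ m ∈ U ⊔ Submodule.span K {x, y, z}, ∃ w ∈ U, ∃ a b c : K,
      m = w + e a * x + e b * y + e c * z := by
    intro m hm
    obtain ⟨w, hw, s, hs, rfl⟩ := Submodule.mem_sup.1 hm
    obtain ⟨a, b, c, rfl⟩ := Submodule.mem_span_triple.1 hs
    refine ⟨w, hw, a, b, c, ?_⟩
    simp only [Algebra.smul_def, he]
    ring
  choose! W hW a b c hMe using hdec
  obtain ⟨w, hw⟩ : ∃ w : Matrix (Fin 2) (Fin 2) Ω, w = Matrix.of fun i j => W (M i j) := ⟨_, rfl⟩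
  obtain ⟨ma, hma⟩ : ∃ m : Matrix (Fin 2) (Fin 2) K, m = Matrix.of fun i j => a (M i j) := ⟨_, rfl⟩
  obtain ⟨mb, hmb⟩ : ∃ m : Matrix (Fin 2) (Fin 2) K, m = Matrix.of fun i j => b (M i j) := ⟨_, rfl⟩
  obtain ⟨mc, hmc⟩ : ∃ m : Matrix (Fin 2) (Fin 2) K, m = Matrix.of fun i j => c (M i j) := ⟨_, rfl⟩
  have hwU : ∀ i j, w i j ∈ U := by
    intro i j
    rw [hw]
    exact hW _ (hM i j)
  have hMij : ∀ i j, M i j = w i j + e (ma i j) * x + e (mb i j) * y + e (mc i j) * z := by
    intro i j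
    rw [hw, hma, hmb, hmc]
    exact hMe _ (hM i j)
  have hws : ∀ i j, σ (w i j) = w i j := fun i j => hUs _ (hwU i j)
  have hwt : ∀ i j, τ (w i j) = w i j := fun i j => hUt _ (hwU i j)
  obtain ⟨k1, k2, k3, k4, k5, k6, k7, k8, k9⟩ := h.quad hb2 (F := w.det)
    (A := Bf w (ma.map e)) (B := Bf w (mb.map e)) (C := Bf w (mc.map e))
    (by simp only [Matrix.det_fin_two, map_sub, map_mul, hws])
    (by simp only [Matrix.det_fin_two, map_sub, map_mul, hwt])
    (by simp only [Bf, Matrix.map_apply, map_sub, map_add, map_mul, hws, h.se])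
    (by simp only [Bf, Matrix.map_apply, map_sub, map_add, map_mul, hwt, h.te])
    (by simp only [Bf, Matrix.map_apply, map_sub, map_add, map_mul, hws, h.se])
    (by simp only [Bf, Matrix.map_apply, map_sub, map_add, map_mul, hwt, h.te])
    (by simp only [Bf, Matrix.map_apply, map_sub, map_add, map_mul, hws, h.se])
    (by simp only [Bf, Matrix.map_apply, map_sub, map_add, map_mul, hwt, h.te])
    ma.det mb.det mc.det (Bf mb mc) (Bf mc ma) (Bf ma mb)
    (by
      rw [← hdet]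
      simp only [Bf, Matrix.det_fin_two, Matrix.map_apply, hMij, map_sub, map_add, map_mul]
      ring)
  have hα : ma.det = 0 := alpha_zero hani ma mb mc k5 k3 k4 k1 k2
  rw [hα] at k1 k2
  have hfin : ∀ n : Matrix (Fin 2) (Fin 2) K, n ≠ 0 → n.det = 0 →
      Bf (n.map e) w = 0 → Bf n ma = 0 → Bf n mb = 0 → Bf n mc = 0 → HasZero K M := by
    intro n hn hnd g0 ga gb gc
    obtain ⟨u, v, hu, hv, huv⟩ := pair_of e n hn hnd
    refine ⟨u, v, hu, hv, ?_⟩
    have hcM := huv M
    have hB : Bf (n.map e) M = Bf (n.map e) w + e (Bf n ma) * x + e (Bf n mb) * y +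
        e (Bf n mc) * z := by
      simp only [Bf, Matrix.map_apply, hMij, map_sub, map_add, map_mul]
      ring
    rw [hB, g0, ga, gb, gc, map_zero] at hcM
    rw [hcM]
    ring
  have Bself : ∀ n : Matrix (Fin 2) (Fin 2) K, n.det = 0 → Bf n n = 0 := by
    intro n hn
    rw [Bf_self, hn, mul_zero]
  by_cases za : ma = 0
  · by_cases zb : mb = 0
    · by_cases zc : mc = 0
      · left
        intro i j
        rw [hMij, za, zb, zc]
        simpa using hwU i j
      · right
        exact hfin mc zc k2 (by rw [Bf_comm]; exact k8) k4 (by rw [Bf_comm]; exact k3) (Bself mc k2)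
    · right
      exact hfin mb zb k1 (by rw [Bf_comm]; exact k7) (by rw [Bf_comm]; exact k5) (Bself mb k1) k3
  · right
    exact hfin ma za hα (by rw [Bf_comm]; exact k6) (Bself ma hα) k5 (by rw [Bf_comm]; exact k4)

end Pool.Agent.P8H78.SF
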