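import Pool.Agent.P8H78.SF.Base

set_option autoImplicit false

/-!
# Project SF (helper10), package WRE (after P8H33/QC/Wre)
-/

open Matrix

namespace Pool.Agent.P8H78.SF

open Pool.Agent.P8H10.SF

/-- `σ i` changes the sign of `x i`, and `τ` permutes the `x i` cyclically -/
structure Wr {K Ω : Type} [Field K] [Field Ω] (e : K →+* Ω) (ℓ : ℕ) [Fact ℓ.Prime] (τ : Ω →+* Ω)
    (σ : ZMod ℓ → Ω →+* Ω) (x : ZMod ℓ → Ω) : Prop where
  te : ∀ c, τ (e c) = e c
  se : ∀ i c, σ i (e c) = e c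
  tx : ∀ i, τ (x i) = x (i + 1)
  ss : ∀ i, σ i (x i) = -x i
  so : ∀ i j, j ≠ i → σ i (x j) = x j
  nx : ∀ i, x i ≠ 0
  sq : ∀ b : ZMod ℓ → K, ∑ i, b i = 0 → ∑ i, e (b i) * x i ^ 2 = 0 → ∀ i, b i = 0

section

variable {K Ω : Type} [Field K] [Field Ω] [CharZero Ω] {e : K →+* Ω} {ℓ : ℕ} [hℓ : Fact ℓ.Prime]
  {τ : Ω →+* Ω} {σ : ZMod ℓ → Ω →+* Ω} {x : ZMod ℓ → Ω}

omit [CharZero Ω] in
/-- the version with a fixed term -/
theorem Wr.circ (h : Wr e ℓ τ σ x) (a : ZMod ℓ → K) {F : Ω} (hF : τ F = F)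
    (he : F + ∑ i, e (a i) * x i ^ 2 = 0) : ∀ i, a i = a 0 := by
  have e1 := congrArg τ he
  rw [map_add, map_sum, hF, map_zero] at e1
  have e2 : ∑ i, τ (e (a i) * x i ^ 2) = ∑ i, e (a (i - 1)) * x i ^ 2 := by
    rw [← Equiv.sum_comp (Equiv.addRight (1 : ZMod ℓ)) (fun i => e (a (i - 1)) * x i ^ 2)]
    refine Finset.sum_congr rfl fun i _ => ?_
    simp only [map_mul, map_pow, h.te, h.tx, Equiv.coe_addRight, add_sub_cancel_right]
  rw [e2] at e1
  have e3 : ∑ i, e (a i - a (i - 1)) * x i ^ 2 = 0 := by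
    have : ∑ i, e (a i - a (i - 1)) * x i ^ 2 =
        ∑ i, e (a i) * x i ^ 2 - ∑ i, e (a (i - 1)) * x i ^ 2 := by
      rw [← Finset.sum_sub_distrib]
      refine Finset.sum_congr rfl fun i _ => ?_
      rw [map_sub]
      ring
    rw [this]
    linear_combination he - e1
  have e4 : ∑ i, (a i - a (i - 1)) = 0 := by
    rw [Finset.sum_sub_distrib, sub_eq_zero]
    exact (Equiv.sum_comp (Equiv.subRight (1 : ZMod ℓ)) a).symm
  have e5 := h.sq _ e4 e3
  have e6 : ∀ n : ℕ, a (n : ZMod ℓ) = a 0 := by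
    intro n
    induction n with
    | zero => simp
    | succ n ih =>
      have := e5 ((n + 1 : ℕ) : ZMod ℓ)
      push_cast at this ⊢
      rw [add_sub_cancel_right] at this
      rw [← ih]
      exact sub_eq_zero.1 this
  intro i
  have := e6 i.val
  rwa [ZMod.natCast_zmod_val] at this

/-- the theorem for `U + ⟨x i⟩` -/
theorem Wr.four (h2 : ℓ ≠ 2) (hani : ∀ s t r : K, s ^ 2 + t ^ 2 + r ^ 2 = 0 → s = 0 ∧ t = 0 ∧ r = 0)
    (h : Wr e ℓ τ σ x) (w : Matrix (Fin 2) (Fin 2) Ω) (m : ZMod ℓ → Matrix (Fin 2) (Fin 2) K)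
    (hwt : ∀ i j, τ (w i j) = w i j) (hws : ∀ k i j, σ k (w i j) = w i j)
    (M : Matrix (Fin 2) (Fin 2) Ω) (hMm0 : M = w + ∑ k, x k • (m k).map e) (hdet : M.det = 0) :
    (∀ k, m k = 0) ∨ ∃ w v : Fin 2 → K, w ≠ 0 ∧ v ≠ 0 ∧ ∑ i, ∑ j, e (w i) * M i j * e (v j) = 0 := by
  classical
  obtain ⟨m', hm'⟩ : ∃ m' : ZMod ℓ → Matrix (Fin 2) (Fin 2) Ω,
      m' = fun k => (m k).map e := ⟨_, rfl⟩
  have hMm : M = w + ∑ k, x k • m' k := by rw [hMm0, hm']
  have hconj : ∀ i, M.map (σ i) = M + (-2 * x i) • m' i := by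
    intro i
    ext a b
    have e1 : M a b = w a b + ∑ k, x k * m' k a b := by
      conv_lhs => rw [hMm]
      simp only [Matrix.add_apply, Matrix.sum_apply, Matrix.smul_apply, smul_eq_mul]
    have e2 : ∀ k, σ i (m' k a b) = m' k a b := fun k => by
      rw [hm']
      simp only [Matrix.map_apply, h.se]
    rw [Matrix.map_apply, Matrix.add_apply, Matrix.smul_apply, e1, map_add, map_sum,
      hws, smul_eq_mul]
    have e3 : ∑ k, σ i (x k * m' k a b) = ∑ k, x k * m' k a b - 2 * x i * m' i a b := by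
      rw [← Finset.add_sum_erase _ _ (Finset.mem_univ i),
        ← Finset.add_sum_erase (Finset.univ : Finset (ZMod ℓ)) (fun k => x k * m' k a b)
          (Finset.mem_univ i)]
      have e4 : ∑ k ∈ Finset.univ.erase i, σ i (x k * m' k a b) =
          ∑ k ∈ Finset.univ.erase i, x k * m' k a b := by
        refine Finset.sum_congr rfl fun k hk => ?_
        rw [map_mul, h.so i k (Finset.ne_of_mem_erase hk), e2]
      rw [e4, map_mul, h.ss, e2]
      ring
    rw [e3]
    ring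
  have hB2 : (2 : Ω) ≠ 0 := two_ne_zero
  have hE : ∀ i, Bf M (m' i) = 2 * x i * (m' i).det := by
    intro i
    have e1 : (M.map (σ i)).det = 0 := by
      have := RingHom.map_det (σ i) M
      rw [RingHom.mapMatrix_apply] at this
      rw [← this, hdet, map_zero]
    rw [hconj, det_add2, det_smul2, hdet, Bf_comm, Bf_smul, Bf_comm] at e1
    have e2 : (2 * x i) * (Bf M (m' i) - 2 * x i * (m' i).det) = 0 := by
      linear_combination -e1
    rcases mul_eq_zero.1 e2 with h' | h'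
    · exact absurd h' (mul_ne_zero hB2 (h.nx i))
    · exact sub_eq_zero.1 h'
  have hort : ∀ i j, j ≠ i → Bf (m j) (m i) = 0 := by
    intro i j hj
    have e1 := congrArg (σ j) (hE i)
    have e2 : σ j (Bf M (m' i)) = Bf (M.map (σ j)) (m' i) := by
      rw [hm']
      simp only [Bf, Matrix.map_apply, map_sub, map_add, map_mul, h.se]
    have e3 : σ j (2 * x i * (m' i).det) = 2 * x i * (m' i).det := by
      rw [map_mul, map_mul, map_ofNat, h.so j i (Ne.symm hj), hm']
      simp only [det_map2, h.se]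
    rw [e2, e3, hconj, Bf_add, Bf_smul, hE i] at e1
    have e4 : (-2 * x j) * Bf (m' j) (m' i) = 0 := by linear_combination e1
    rcases mul_eq_zero.1 e4 with h' | h'
    · exact absurd h' (mul_ne_zero (neg_ne_zero.2 hB2) (h.nx j))
    · rw [hm'] at h'
      simp only [Bf_map'] at h'
      exact (map_eq_zero e).1 h'
  have hsumB : ∀ i, Bf (∑ k, x k • m' k) (m' i) = 2 * x i * (m' i).det := by
    intro i
    rw [hm', Bf_sum, Finset.sum_eq_single i]
    · rw [Bf_self, det_map2, map_mul, map_ofNat]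
      ring
    · intro k _ hk
      rw [hort i k hk]
      simp
    · intro h'
      exact absurd (Finset.mem_univ i) h'
  have hwm : ∀ i, Bf w (m' i) = 0 := by
    intro i
    have e1 := hE i
    rw [hMm, Bf_add, hsumB i] at e1
    linear_combination e1
  have hdetsum : ∀ s : Finset (ZMod ℓ), (w + ∑ k ∈ s, x k • m' k).det =
      w.det + ∑ k ∈ s, e (m k).det * x k ^ 2 := by
    intro s
    induction s using Finset.induction_on with
    | empty => simp
    | insert i s hi ih =>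
      rw [Finset.sum_insert hi, Finset.sum_insert hi, add_left_comm, add_comm, det_add2, ih,
        det_smul2]
      have e1 : Bf (w + ∑ k ∈ s, x k • m' k) (x i • m' i) = 0 := by
        rw [Bf_comm, Bf_smul, Bf_comm, Bf_add, hwm i, hm', Bf_sum]
        rw [Finset.sum_eq_zero]
        · ring
        · intro k hk
          rw [hort i k (by rintro rfl; exact hi hk)]
          simp
      rw [e1, hm', det_map2]
      ring
  have hF : w.det + ∑ k, e (m k).det * x k ^ 2 = 0 := by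
    rw [← hdetsum, ← hMm, hdet]
  have hFt : τ w.det = w.det := by
    simp only [Matrix.det_fin_two, map_sub, map_mul, hwt]
  have hall : ∀ i, (m i).det = (m 0).det := h.circ (fun k => (m k).det) hFt hF
  have hprime : 3 ≤ ℓ := by
    have h1 := hℓ.out.two_le
    omega
  have hne : ∀ a b : ℕ, a < 3 → b < 3 → a ≠ b → (a : ZMod ℓ) ≠ (b : ZMod ℓ) := by
    intro a b ha hb hab he
    have := congrArg ZMod.val he
    rw [ZMod.val_natCast_of_lt (by omega), ZMod.val_natCast_of_lt (by omega)] at this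
    exact hab this
  have hα : (m ((0 : ℕ) : ZMod ℓ)).det = 0 := by
    refine alpha_zero hani (m ((0 : ℕ) : ZMod ℓ)) (m ((1 : ℕ) : ZMod ℓ)) (m ((2 : ℕ) : ZMod ℓ))
      ?_ ?_ ?_ ?_ ?_
    · exact hort _ _ (hne 0 1 (by norm_num) (by norm_num) (by norm_num))
    · exact hort _ _ (hne 1 2 (by norm_num) (by norm_num) (by norm_num))
    · exact hort _ _ (hne 2 0 (by norm_num) (by norm_num) (by norm_num))
    · rw [hall, hall ((0 : ℕ) : ZMod ℓ)]
    · rw [hall, hall ((0 : ℕ) : ZMod ℓ)]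
  have hzero : ∀ k, (m k).det = 0 := by
    intro k
    rw [hall k, ← hall ((0 : ℕ) : ZMod ℓ), hα]
  by_cases hz : ∀ k, m k = 0
  · exact Or.inl hz
  · right
    push Not at hz
    obtain ⟨k, hk⟩ := hz
    obtain ⟨u, v, hu, hv, huv⟩ := pair_of e (m k) hk (hzero k)
    refine ⟨u, v, hu, hv, ?_⟩
    rw [huv M, Bf_comm]
    have := hE k
    rw [hm', det_map2, hzero k, map_zero, mul_zero] at this
    exact this

end

theorem wre : S_WRE := by
  intro K Ω _ _ _ _ ℓ _ h2 hani τ σ x hte hse htx hss hso hnx hsq U hUt hUs M hM hdet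
  have h : Wr (algebraMap K Ω) ℓ τ σ x := ⟨hte, hse, htx, hss, hso, hnx, hsq⟩
  have hdec : ∀ m ∈ U ⊔ Submodule.span K (Set.range x), ∃ w ∈ U, ∃ c : ZMod ℓ → K,
      m = w + ∑ i, algebraMap K Ω (c i) * x i := by
    intro m hm
    obtain ⟨w, hw, s, hs, rfl⟩ := Submodule.mem_sup.1 hm
    obtain ⟨c, rfl⟩ := (Submodule.mem_span_range_iff_exists_fun K).1 hs
    refine ⟨w, hw, c, ?_⟩
    simp only [Algebra.smul_def]
  choose! W hW c hMe using hdec
  obtain ⟨w, hw⟩ : ∃ w : Matrix (Fin 2) (Fin 2) Ω, w = Matrix.of fun i j => W (M i j) := ⟨_, rfl⟩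
  obtain ⟨m, hm⟩ : ∃ m : ZMod ℓ → Matrix (Fin 2) (Fin 2) K,
      m = fun k => Matrix.of fun i j => c (M i j) k := ⟨_, rfl⟩
  have hwU : ∀ i j, w i j ∈ U := by
    intro i j
    rw [hw]
    exact hW _ (hM i j)
  have hMm : M = w + ∑ k, x k • (m k).map (algebraMap K Ω) := by
    ext i j
    rw [hMe _ (hM i j), Matrix.add_apply, Matrix.sum_apply, hw]
    congr 1
    refine Finset.sum_congr rfl fun k _ => ?_
    rw [hm]
    simp only [Matrix.smul_apply, Matrix.map_apply, Matrix.of_apply, smul_eq_mul]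
    ring
  rcases h.four h2 hani w m (fun i j => hUt _ (hwU i j)) (fun k i j => hUs k _ (hwU i j)) M hMm hdet
    with hz | hz
  · left
    intro i j
    rw [hMm]
    simp only [hz]
    simpa using hwU i j
  · exact Or.inr hz

end Pool.Agent.P8H78.SF
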