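import Pool.Agent.P8H10.SF.Stm

set_option autoImplicit false

/-!
# Project SF (helper10): general lemmas on pairs of matrices over a subfield (after P8H33/QC/Core)
-/

open Matrix

namespace Pool.Agent.P8H78.SF

/-- the polar form of the determinant -/
def Bf {R : Type*} [CommRing R] (m n : Matrix (Fin 2) (Fin 2) R) : R :=
  m 0 0 * n 1 1 + n 0 0 * m 1 1 - m 0 1 * n 1 0 - n 0 1 * m 1 0

section

variable {K Ω : Type} [Field K] [Field Ω] (e : K →+* Ω)

/-- a matrix of rank one gives a pair of vectors -/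
theorem pair_of (n : Matrix (Fin 2) (Fin 2) K) (hn : n ≠ 0)
    (hdet : n.det = 0) : ∃ w v : Fin 2 → K, w ≠ 0 ∧ v ≠ 0 ∧
      ∀ M : Matrix (Fin 2) (Fin 2) Ω,
        ∑ i, ∑ j, e (w i) * M i j * e (v j) = Bf (n.map e) M := by
  rw [Matrix.det_fin_two] at hdet
  by_cases h1 : n 1 1 ≠ 0 ∨ n 1 0 ≠ 0
  · obtain ⟨k, hk1, hk2⟩ : ∃ k : K, -n 0 1 = k * n 1 1 ∧ n 0 0 = k * (-n 1 0) := by
      rcases h1 with h | h
      · refine ⟨-n 0 1 / n 1 1, by field_simp, ?_⟩
        field_simp
        linear_combination hdet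
      · refine ⟨-n 0 0 / n 1 0, ?_, by field_simp⟩
        field_simp
        linear_combination hdet
    refine ⟨![1, k], ![n 1 1, -n 1 0], ?_, ?_, fun M => ?_⟩
    · intro h
      have := congrFun h 0
      simp at this
    · intro h
      have e0 := congrFun h 0
      have e1 := congrFun h 1
      simp at e0 e1
      rcases h1 with h | h
      · exact h e0
      · exact h e1
    · have c1 : -e (n 0 1) = e k * e (n 1 1) := by rw [← map_neg, hk1, map_mul]
      have c2 : e (n 0 0) = e k * (-e (n 1 0)) := by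
        conv_lhs => rw [hk2]
        rw [map_mul, map_neg]
      simp only [Fin.sum_univ_two, Bf, Matrix.map_apply, Matrix.cons_val_zero,
        Matrix.cons_val_one, map_one, map_neg]
      linear_combination (-M 1 0) * c1 - M 1 1 * c2
  · push Not at h1
    refine ⟨![0, 1], ![-n 0 1, n 0 0], ?_, ?_, fun M => ?_⟩
    · intro h
      have := congrFun h 1
      simp at this
    · intro h
      have e0 := congrFun h 0
      have e1 := congrFun h 1
      simp at e0 e1
      apply hn
      ext i j
      fin_cases i <;> fin_cases j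
      · exact e1
      · exact e0
      · exact h1.2
      · exact h1.1
    · simp only [Fin.sum_univ_two, Bf, Matrix.map_apply, Matrix.cons_val_zero,
        Matrix.cons_val_one, map_one, map_neg, map_zero]
      rw [h1.1, h1.2, map_zero]
      ring

end

/-- three matrices: a combination with zero first column -/
theorem exists_comb {K : Type} [Field K] (a b c : Matrix (Fin 2) (Fin 2) K) :
    ∃ s t r : K, (s ≠ 0 ∨ t ≠ 0 ∨ r ≠ 0) ∧ s * a 0 0 + t * b 0 0 + r * c 0 0 = 0 ∧
      s * a 1 0 + t * b 1 0 + r * c 1 0 = 0 := by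
  have h : ∃ v : Fin 3 → K, v ≠ 0 ∧
      (!![a 0 0, b 0 0, c 0 0; a 1 0, b 1 0, c 1 0; 0, 0, 0] : Matrix (Fin 3) (Fin 3) K) *ᵥ v = 0 := by
    rw [Matrix.exists_mulVec_eq_zero_iff, Matrix.det_fin_three]
    simp
  obtain ⟨v, hv, hv0⟩ := h
  refine ⟨v 0, v 1, v 2, ?_, ?_, ?_⟩
  · by_contra hcon
    push Not at hcon
    apply hv
    ext i
    fin_cases i
    · exact hcon.1
    · exact hcon.2.1
    · exact hcon.2.2
  · have := congrFun hv0 0
    simp [Matrix.mulVec, dotProduct, Fin.sum_univ_three] at this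
    linear_combination this
  · have := congrFun hv0 1
    simp [Matrix.mulVec, dotProduct, Fin.sum_univ_three] at this
    linear_combination this

/-- an anisotropic ternary form is not a restriction of the determinant -/
theorem alpha_zero {K : Type} [Field K]
    (hani : ∀ s t r : K, s ^ 2 + t ^ 2 + r ^ 2 = 0 → s = 0 ∧ t = 0 ∧ r = 0)
    (a b c : Matrix (Fin 2) (Fin 2) K) (hab : Bf a b = 0) (hbc : Bf b c = 0)
    (hca : Bf c a = 0) (h1 : b.det = a.det) (h2 : c.det = a.det) : a.det = 0 := by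
  obtain ⟨s, t, r, hne, e0, e1⟩ := exists_comb a b c
  rw [Matrix.det_fin_two] at h1 h2 ⊢
  rw [Matrix.det_fin_two] at h1 h2
  simp only [Bf] at hab hbc hca
  have key : (a 0 0 * a 1 1 - a 0 1 * a 1 0) * (s ^ 2 + t ^ 2 + r ^ 2) = 0 := by
    have hdet : (s * a 0 0 + t * b 0 0 + r * c 0 0) * (s * a 1 1 + t * b 1 1 + r * c 1 1) -
        (s * a 0 1 + t * b 0 1 + r * c 0 1) * (s * a 1 0 + t * b 1 0 + r * c 1 0) = 0 := by
      rw [e0, e1]; ring
    linear_combination hdet - t ^ 2 * h1 - r ^ 2 * h2 - s * t * hab - t * r * hbc - s * r * hca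
  rcases mul_eq_zero.1 key with h | h
  · exact h
  · exfalso
    obtain ⟨hs, ht, hr⟩ := hani s t r h
    rcases hne with h | h | h
    · exact h hs
    · exact h ht
    · exact h hr

theorem Bf_add {R : Type*} [CommRing R] (a b c : Matrix (Fin 2) (Fin 2) R) :
    Bf (a + b) c = Bf a c + Bf b c := by
  simp only [Bf, Matrix.add_apply]
  ring

theorem Bf_smul {R : Type*} [CommRing R] (x : R) (a c : Matrix (Fin 2) (Fin 2) R) :
    Bf (x • a) c = x * Bf a c := by
  simp only [Bf, Matrix.smul_apply, smul_eq_mul]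
  ring

theorem Bf_comm {R : Type*} [CommRing R] (a c : Matrix (Fin 2) (Fin 2) R) : Bf a c = Bf c a := by
  simp only [Bf]
  ring

theorem Bf_self {R : Type*} [CommRing R] (a : Matrix (Fin 2) (Fin 2) R) : Bf a a = 2 * a.det := by
  simp only [Bf, Matrix.det_fin_two]
  ring

theorem det_add2 {R : Type*} [CommRing R] (a b : Matrix (Fin 2) (Fin 2) R) :
    (a + b).det = a.det + b.det + Bf a b := by
  simp only [Bf, Matrix.det_fin_two, Matrix.add_apply]
  ring

theorem det_smul2 {R : Type*} [CommRing R] (x : R) (a : Matrix (Fin 2) (Fin 2) R) :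
    (x • a).det = x ^ 2 * a.det := by
  simp only [Matrix.det_fin_two, Matrix.smul_apply, smul_eq_mul]
  ring

section

variable {K Ω : Type} [Field K] [Field Ω] (e : K →+* Ω)

theorem Bf_map' (a b : Matrix (Fin 2) (Fin 2) K) :
    Bf (a.map e) (b.map e) = e (Bf a b) := by
  simp only [Bf, Matrix.map_apply, map_sub, map_add, map_mul]

theorem det_map2 (a : Matrix (Fin 2) (Fin 2) K) : (a.map e).det = e a.det := by
  simp only [Matrix.det_fin_two, Matrix.map_apply, map_sub, map_mul]

theorem Bf_sum {ι : Type*} (s : Finset ι) (x : ι → Ω)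
    (m : ι → Matrix (Fin 2) (Fin 2) K) (c : Matrix (Fin 2) (Fin 2) K) :
    Bf (∑ i ∈ s, x i • (m i).map e) (c.map e) = ∑ i ∈ s, x i * e (Bf (m i) c) := by
  classical
  induction s using Finset.induction_on with
  | empty => simp [Bf]
  | insert i s hi ih =>
    rw [Finset.sum_insert hi, Finset.sum_insert hi, Bf_add, Bf_smul, ih, Bf_map']

end

end Pool.Agent.P8H78.SF
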